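import Pool.Agent.Helper47.FLG.Alg2

/-!
# Project FLG, packet SBO: third strictness statement, odd dimension
-/

namespace Pool.Agent.Helper47.FLG.SBOx

open Finset Pool.Agent.Helper47.RFn

/-- an alternating form in odd dimension has a kernel -/
lemma odd_ker {n : ℕ} (hn : Odd n) (B : (Fin n → ℝ) →ₗ[ℝ] (Fin n → ℝ) →ₗ[ℝ] ℝ)
    (hB : ∀ p q, B p q = - B q p) : ∃ v, v ≠ 0 ∧ ∀ p, B p v = 0 := by
  set M : Matrix (Fin n) (Fin n) ℝ := Matrix.of (fun i j => B (Pi.single i 1) (Pi.single j 1))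
    with hM
  have hT : M.transpose = -M := by
    ext i j
    simp only [Matrix.transpose_apply, Matrix.neg_apply, hM, Matrix.of_apply]
    exact hB _ _
  have hdet : M.det = 0 := by
    have h1 := Matrix.det_transpose M
    rw [hT, Matrix.det_neg, Fintype.card_fin, hn.neg_one_pow] at h1
    linarith
  obtain ⟨v, hv, hMv⟩ := Matrix.exists_mulVec_eq_zero_iff.2 hdet
  refine ⟨v, hv, fun p => ?_⟩
  have hp : p = ∑ i, p i • (Pi.single i (1 : ℝ) : Fin n → ℝ) := by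
    funext k
    simp [Finset.sum_apply, Pi.single_apply]
  have hv' : v = ∑ j, v j • (Pi.single j (1 : ℝ) : Fin n → ℝ) := by
    funext k
    simp [Finset.sum_apply, Pi.single_apply]
  have h2 : ∀ i, B (Pi.single i 1) v = 0 := by
    intro i
    have h3 := congrFun hMv i
    rw [Matrix.mulVec, dotProduct, Pi.zero_apply] at h3
    rw [hv', map_sum, ← h3]
    refine sum_congr rfl (fun j _ => ?_)
    rw [map_smul, smul_eq_mul, mul_comm]
    rfl
  rw [hp, map_sum, LinearMap.sum_apply]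
  refine sum_eq_zero (fun i _ => ?_)
  rw [map_smul, LinearMap.smul_apply, h2, smul_zero]

/-- the linear form `p ↦ dot p v` -/
def dL {n : ℕ} (v : Fin n → ℝ) : (Fin n → ℝ) →ₗ[ℝ] ℝ where
  toFun p := dot p v
  map_add' p q := by
    simp only [dot, Pi.add_apply, add_mul, sum_add_distrib]
  map_smul' c p := by
    simp only [dot, Pi.smul_apply, smul_eq_mul, mul_sum, RingHom.id_apply]
    exact sum_congr rfl (fun i _ => by ring)

@[simp] lemma dL_apply {n : ℕ} (v p : Fin n → ℝ) : dL v p = dot p v := rfl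

lemma dot_comm' {n : ℕ} (u v : Fin n → ℝ) : dot u v = dot v u := by
  unfold dot
  exact sum_congr rfl (fun i _ => by ring)

lemma dot_self_zero {n : ℕ} {v : Fin n → ℝ} (h : dot v v = 0) : v = 0 := by
  unfold dot at h
  funext i
  have h1 := (sum_eq_zero_iff_of_nonneg (fun i _ => mul_self_nonneg (v i))).1 h i (mem_univ i)
  simpa using h1

/-- `R4 R a p c q` as a bilinear form in `p, q` -/
def rL {n : ℕ} (R : T4 n) (a c : Fin n → ℝ) : (Fin n → ℝ) →ₗ[ℝ] (Fin n → ℝ) →ₗ[ℝ] ℝ :=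
  LinearMap.mk₂ ℝ (fun p q => R4 R a p c q)
    (by
      intro p p' q
      simp only [R4, Pi.add_apply, ← sum_add_distrib]
      exact sum_congr rfl (fun i _ => sum_congr rfl (fun j _ => sum_congr rfl (fun k _ =>
        sum_congr rfl (fun l _ => by ring)))))
    (by
      intro t p q
      simp only [R4, Pi.smul_apply, smul_eq_mul, mul_sum]
      exact sum_congr rfl (fun i _ => sum_congr rfl (fun j _ => sum_congr rfl (fun k _ =>
        sum_congr rfl (fun l _ => by ring)))))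
    (by
      intro p q q'
      simp only [R4, Pi.add_apply, ← sum_add_distrib]
      exact sum_congr rfl (fun i _ => sum_congr rfl (fun j _ => sum_congr rfl (fun k _ =>
        sum_congr rfl (fun l _ => by ring)))))
    (by
      intro t p q
      simp only [R4, Pi.smul_apply, smul_eq_mul, mul_sum]
      exact sum_congr rfl (fun i _ => sum_congr rfl (fun j _ => sum_congr rfl (fun k _ =>
        sum_congr rfl (fun l _ => by ring)))))

@[simp] lemma rL_apply {n : ℕ} (R : T4 n) (a c p q : Fin n → ℝ) : rL R a c p q = R4 R a p c q := rfl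

/-- projection to the complement of the frame -/
def pW {n : ℕ} (e : Fin 4 → Fin n → ℝ) : (Fin n → ℝ) →ₗ[ℝ] (Fin n → ℝ) :=
  LinearMap.id - ∑ j, (dL (e j)).smulRight (e j)

lemma pW_apply {n : ℕ} (e : Fin 4 → Fin n → ℝ) (p : Fin n → ℝ) :
    pW e p = p - ∑ j, dot p (e j) • e j := by
  simp [pW]

lemma pW_perp {n : ℕ} {e : Fin 4 → Fin n → ℝ} (he : ON e) (p : Fin n → ℝ) : perp4 e (pW e p) := by
  intro i
  have he' : ∀ i j, dot (e i) (e j) = if i = j then 1 else 0 := he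
  rw [← dL_apply, pW_apply, map_sub, map_sum]
  simp only [map_smul, dL_apply, he', smul_eq_mul]
  simp

lemma pW_of_perp {n : ℕ} {e : Fin 4 → Fin n → ℝ} {p : Fin n → ℝ} (hp : perp4 e p) :
    pW e p = p := by
  rw [pW_apply]
  simp [hp _]

lemma pW_e {n : ℕ} {e : Fin 4 → Fin n → ℝ} (he : ON e) (i : Fin 4) : pW e (e i) = 0 := by
  have he' : ∀ i j, dot (e i) (e j) = if i = j then 1 else 0 := he
  rw [pW_apply]
  simp only [he']
  simp

/-- a linear form vanishing on the frame and on both pieces of the complement is zero -/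
lemma lin_zero {n : ℕ} {e : Fin 4 → Fin n → ℝ} (he : ON e) {E1 E4 : (Fin n → ℝ) → Prop}
    (hdec : ∀ q, perp4 e q → ∃ q1 q4, E1 q1 ∧ E4 q4 ∧ q = q1 + q4)
    (φ : (Fin n → ℝ) →ₗ[ℝ] ℝ) (h0 : ∀ j, φ (e j) = 0) (h1 : ∀ q, E1 q → φ q = 0)
    (h4 : ∀ q, E4 q → φ q = 0) (p : Fin n → ℝ) : φ p = 0 := by
  obtain ⟨q1, q4, hq1, hq4, hq⟩ := hdec _ (pW_perp he p)
  have e1 : p = (∑ j, dot p (e j) • e j) + (q1 + q4) := by
    rw [← hq, pW_apply]; abel
  rw [e1, map_add, map_add, map_sum, h1 q1 hq1, h4 q4 hq4]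
  simp [h0]

/-- parity -/
theorem parity {n : ℕ} (hn : Odd n) (e : Fin 4 → Fin n → ℝ) (he : ON e)
    (E1 E4 : (Fin n → ℝ) → Prop) (h1W : ∀ q, E1 q → perp4 e q) (h4W : ∀ q, E4 q → perp4 e q)
    (A : (Fin n → ℝ) →ₗ[ℝ] (Fin n → ℝ)) (hA1 : ∀ q, E1 q → A q = q)
    (hA4 : ∀ q, E4 q → A q = (4 : ℝ) • q)
    (hdec : ∀ q, perp4 e q → ∃ q1 q4, E1 q1 ∧ E4 q4 ∧ q = q1 + q4)
    (T X : (Fin n → ℝ) →ₗ[ℝ] (Fin n → ℝ) →ₗ[ℝ] ℝ)
    (hT : ∀ p q, perp4 e p → perp4 e q → T p q = - T q p)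
    (hT4 : ∀ p q, perp4 e p → E4 q → T p q = 0)
    (hT1 : ∀ v, E1 v → (∀ u, E1 u → T u v = 0) → v = 0)
    (hX : ∀ p q, E4 p → E4 q → X p q = - X q p)
    (hX4 : ∀ v, E4 v → (∀ u, E4 u → X u v = 0) → v = 0) : False := by
  set P4 : (Fin n → ℝ) →ₗ[ℝ] (Fin n → ℝ) := (1 / 3 : ℝ) • ((A - LinearMap.id) ∘ₗ pW e) with hP4
  have hP4a : ∀ p, P4 p = (1 / 3 : ℝ) • (A (pW e p) - pW e p) := fun p => by simp [hP4]
  have hP41 : ∀ q, E1 q → P4 q = 0 := by
    intro q hq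
    rw [hP4a, pW_of_perp (h1W q hq), hA1 q hq]; simp
  have hP44 : ∀ q, E4 q → P4 q = q := by
    intro q hq
    rw [hP4a, pW_of_perp (h4W q hq), hA4 q hq]
    funext i
    simp only [Pi.smul_apply, Pi.sub_apply, smul_eq_mul]
    ring
  have hP4e : ∀ j, P4 (e j) = 0 := by
    intro j
    rw [hP4a, pW_e he]; simp
  have hPW : ∀ p, P4 (pW e p) = P4 p := by
    intro p
    rw [hP4a, hP4a, pW_of_perp (pW_perp he p)]
  have hE4 : ∀ p, E4 (P4 p) := by
    intro p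
    obtain ⟨q1, q4, hq1, hq4, hq⟩ := hdec _ (pW_perp he p)
    rw [← hPW, hq, map_add, hP41 q1 hq1, hP44 q4 hq4, zero_add]
    exact hq4
  set J : (Fin n → ℝ) →ₗ[ℝ] (Fin n → ℝ) →ₗ[ℝ] ℝ :=
    (dL (e 0)).smulRight (dL (e 1)) - (dL (e 1)).smulRight (dL (e 0)) +
      ((dL (e 2)).smulRight (dL (e 3)) - (dL (e 3)).smulRight (dL (e 2))) with hJ
  have hJa : ∀ p q, J p q = dot p (e 0) * dot q (e 1) - dot p (e 1) * dot q (e 0) +
      (dot p (e 2) * dot q (e 3) - dot p (e 3) * dot q (e 2)) := by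
    intro p q; simp [hJ]
  set B : (Fin n → ℝ) →ₗ[ℝ] (Fin n → ℝ) →ₗ[ℝ] ℝ :=
    X.compl₁₂ P4 P4 + T.compl₁₂ (pW e) (pW e) + J with hB
  have hBa : ∀ p q, B p q = X (P4 p) (P4 q) + T (pW e p) (pW e q) + J p q := by
    intro p q; simp [hB]
  obtain ⟨v, hv, hBv⟩ := odd_ker hn B (by
    intro p q
    rw [hBa, hBa, hX _ _ (hE4 p) (hE4 q), hT _ _ (pW_perp he p) (pW_perp he q), hJa, hJa]
    ring)
  apply hv
  -- the frame part
  have hpe : perp4 e v := by
    have h0 : ∀ j, J (e j) v = 0 := by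
      intro j
      have h1 := hBv (e j)
      rw [hBa, hP4e, pW_e he] at h1
      simpa using h1
    have c0 := h0 0
    have c1 := h0 1
    have c2 := h0 2
    have c3 := h0 3
    rw [hJa] at c0 c1 c2 c3
    have he' : ∀ i j, dot (e i) (e j) = if i = j then 1 else 0 := he
    simp only [he'] at c0 c1 c2 c3
    intro i
    fin_cases i
    · simpa using c1
    · simpa using c0
    · simpa using c3
    · simpa using c2
  have hJv : ∀ p, J p v = 0 := by
    intro p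
    rw [hJa, hpe, hpe, hpe, hpe]; ring
  obtain ⟨v1, v4, hv1, hv4, hvd⟩ := hdec v hpe
  have hv1z : v1 = 0 := by
    apply hT1 v1 hv1
    intro u hu
    have h1 := hBv u
    rw [hBa, hP41 u hu, pW_of_perp (h1W u hu), pW_of_perp hpe, hJv, hvd, map_add (T u),
      hT4 u v4 (h1W u hu) hv4] at h1
    simpa using h1
  rw [hv1z, zero_add] at hvd
  rw [hvd]
  apply hX4 v4 hv4
  intro u hu
  have h1 := hBv u
  rw [hBa, hP44 u hu, pW_of_perp (h4W u hu), pW_of_perp hpe, hJv, hvd, hP44 v4 hv4,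
    hT4 u v4 (h4W u hu) hv4] at h1
  simpa using h1

/-! ## Eigenvectors -/

/-- eigenvector in the complement of the frame -/
def EW {n : ℕ} (R : T4 n) (e : Fin 4 → Fin n → ℝ) (z : Fin n → ℝ) (s : ℝ) (q : Fin n → ℝ) : Prop :=
  perp4 e q ∧ Eg R z s q

lemma dot_sub_left {n : ℕ} (u v w : Fin n → ℝ) : dot (u - v) w = dot u w - dot v w := by
  rw [← dL_apply, map_sub]; rfl

lemma dot_add_left {n : ℕ} (u v w : Fin n → ℝ) : dot (u + v) w = dot u w + dot v w := by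
  rw [← dL_apply, map_add]; rfl

lemma perp_sub {n : ℕ} {e : Fin 4 → Fin n → ℝ} {p q : Fin n → ℝ} (hp : perp4 e p)
    (hq : perp4 e q) : perp4 e (p - q) := by
  intro i
  rw [dot_sub_left, hp i, hq i, sub_zero]

lemma Eg_sub {n : ℕ} {R : T4 n} {z : Fin n → ℝ} {s : ℝ} {p q : Fin n → ℝ} (hp : Eg R z s p)
    (hq : Eg R z s q) : Eg R z s (p - q) := by
  refine ⟨by rw [dot_sub_left, hp.1, hq.1, sub_zero], fun x => ?_⟩
  have h1 : R4 R z x z (p - q) = R4 R z x z p - R4 R z x z q := by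
    rw [← rL_apply, map_sub]; rfl
  rw [h1, hp.2, hq.2, dot_comm' x (p - q), dot_sub_left, dot_comm' p x, dot_comm' q x]
  ring

lemma EW_sub {n : ℕ} {R : T4 n} {e : Fin 4 → Fin n → ℝ} {z : Fin n → ℝ} {s : ℝ}
    {p q : Fin n → ℝ} (hp : EW R e z s p) (hq : EW R e z s q) : EW R e z s (p - q) :=
  ⟨perp_sub hp.1 hq.1, Eg_sub hp.2 hq.2⟩

lemma Eg_orth {n : ℕ} {R : T4 n} (hpair : ∀ a b c d, R4 R a b c d = R4 R c d a b)
    {z : Fin n → ℝ} {s t : ℝ} (hst : s ≠ t) {p q : Fin n → ℝ} (hp : Eg R z s p)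
    (hq : Eg R z t q) : dot p q = 0 := by
  have h1 := hp.2 q
  have h2 := hq.2 p
  rw [hpair, h1, dot_comm' q p] at h2
  have h3 : (s - t) * dot p q = 0 := by linarith
  rcases mul_eq_zero.1 h3 with h4 | h4
  · exact absurd (sub_eq_zero.1 h4) hst
  · exact h4

lemma dot_lc {n : ℕ} (e : Fin 4 → Fin n → ℝ) (a b c d : ℝ) (q : Fin n → ℝ) :
    dot q (lc e a b c d) = a * dot q (e 0) + b * dot q (e 1) + c * dot q (e 2) + d * dot q (e 3) := by
  simp only [dot, lc, mul_sum, ← sum_add_distrib]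
  exact sum_congr rfl (fun i _ => by ring)

lemma perp_ufr {n : ℕ} {e : Fin 4 → Fin n → ℝ} {q : Fin n → ℝ} (hq : perp4 e q)
    (a b c d s t : ℝ) : perp4 (ufr e a b c d s t) q := by
  intro i
  fin_cases i <;> simp [ufr, dot_lc, hq _]

lemma R4_last {n : ℕ} (R : T4 n) (a b c d : Fin n → ℝ) :
    R4 R a b c d = ∑ j, d j * R4 R a b c (sb j) := by
  have h1 : d = ∑ j, d j • (sb j : Fin n → ℝ) := by
    funext k
    simp [Finset.sum_apply, sb]
  have h2 := congrArg (rL R a c b) h1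
  rw [rL_apply, map_sum] at h2
  rw [h2]
  refine sum_congr rfl (fun j _ => ?_)
  rw [map_smul, smul_eq_mul, rL_apply]

section Geo

variable {n : ℕ} {R : T4 n} {e : Fin 4 → Fin n → ℝ}

/-- the hypotheses on the frame -/
structure Vn {n : ℕ} (R : T4 n) (e : Fin 4 → Fin n → ℝ) : Prop where
  nv : NV R e
  q0 : qf (Q R) (cv (e 0) (e 1)) (cv (e 2) (e 3)) = 0

lemma Vn.ufr (hU2 : G_U2) (hNV1 : G_NV1) (hCL : Goal_CL) (hn : 4 ≤ n) (h : Vn R e)
    (a b c d s t : ℝ) (h1 : a ^ 2 + b ^ 2 + c ^ 2 + d ^ 2 = 1) (h2 : s ^ 2 + t ^ 2 = 1) :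
    Vn R (ufr e a b c d s t) := by
  refine ⟨(hNV1 n hn R e h.nv).2.2.2 a b c d s t h1 h2, ?_⟩
  rw [(hU2 n e a b c d s t h.nv.on h1 h2).2 (Q R) ((hCL n).1 R h.nv.fg.1)]
  exact h.q0

/-- first part: the three frames which are used -/
lemma frames (e : Fin 4 → Fin n → ℝ) :
    (FLG.ufr e 0 0 1 0 (-1) 0 = ![e 2, e 3, e 0, e 1]) ∧
    (FLG.ufr e 0 0 0 1 0 (-1) = ![e 3, fun i => - e 2 i, e 0, e 1]) ∧
    (∀ s t : ℝ, FLG.ufr e 1 0 0 0 s t =
      ![e 0, e 1, fun i => s * e 2 i + t * e 3 i, fun i => - t * e 2 i + s * e 3 i]) := by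
  refine ⟨?_, ?_, fun s t => ?_⟩
  · funext j i
    fin_cases j <;> simp [FLG.ufr, lc]
  · funext j i
    fin_cases j <;> simp [FLG.ufr, lc]
  · funext j i
    fin_cases j <;> simp [FLG.ufr, lc]

theorem contra (hOD1 : G_OD1) (hOD2 : G_OD2) (hOD3 : G_OD3) (hU2 : G_U2) (hNV1 : G_NV1)
    (hCL : Goal_CL) (hR4T : G_R4T) (hn : 4 ≤ n) (hodd : Odd n) (h : Vn R e) : False := by
  have hpair : ∀ a b c d, R4 R a b c d = R4 R c d a b := fun a b c d =>
    ((hR4T n).2.2.1 R h.nv.fg.1 a b c d).2.2.1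
  have he : ON e := h.nv.on
  -- the frames
  obtain ⟨F1, F2, F3⟩ := frames e
  have v1 := h.ufr hU2 hNV1 hCL hn 0 0 1 0 (-1) 0 (by norm_num) (by norm_num)
  have v2 := h.ufr hU2 hNV1 hCL hn 0 0 0 1 0 (-1) (by norm_num) (by norm_num)
  have v3 := h.ufr hU2 hNV1 hCL hn 1 0 0 0 0 1 (by norm_num) (by norm_num)
  have hsq : (Real.sqrt (1 / 2)) ^ 2 = 1 / 2 := Real.sq_sqrt (by norm_num)
  have v4 := h.ufr hU2 hNV1 hCL hn 1 0 0 0 (Real.sqrt (1 / 2)) (Real.sqrt (1 / 2)) (by norm_num)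
    (by rw [hsq]; norm_num)
  have p1 : ∀ {q}, perp4 e q → perp4 (ufr e 0 0 1 0 (-1) 0) q := fun hq => perp_ufr hq _ _ _ _ _ _
  have p2 : ∀ {q}, perp4 e q → perp4 (ufr e 0 0 0 1 0 (-1)) q := fun hq => perp_ufr hq _ _ _ _ _ _
  have p3 : ∀ {q}, perp4 e q → perp4 (ufr e 1 0 0 0 0 1) q := fun hq => perp_ufr hq _ _ _ _ _ _
  have p4 : ∀ {q}, perp4 e q →
      perp4 (ufr e 1 0 0 0 (Real.sqrt (1 / 2)) (Real.sqrt (1 / 2))) q :=
    fun hq => perp_ufr hq _ _ _ _ _ _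
  rw [F1] at v1 p1
  rw [F2] at v2 p2
  rw [F3] at v3 v4 p3 p4
  have e3' : (fun i => (0 : ℝ) * e 2 i + 1 * e 3 i) = e 3 := by funext i; ring
  rw [e3'] at v3 p3
  obtain ⟨a1, a2, a3, a4⟩ := hOD1 n hn R e h.nv h.q0
  obtain ⟨b1, b2, -, -⟩ := hOD1 n hn R _ v1.nv v1.q0
  obtain ⟨c1, c2, -, -⟩ := hOD1 n hn R _ v2.nv v2.q0
  obtain ⟨d1, d2, -, -, d5, -⟩ := hOD2 n hn R e h.nv h.q0
  obtain ⟨f1, -, f3, -, f5, f6⟩ := hOD2 n hn R _ v3.nv v3.q0
  obtain ⟨-, -, -, -, g5, -⟩ := hOD2 n hn R _ v4.nv v4.q0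
  obtain ⟨t1, t2, t3⟩ := hOD3 n hn R e h.nv h.q0
  simp only [Matrix.cons_val_zero, Matrix.cons_val_one, Matrix.cons_val] at b1 b2 c1 c2 f1 f3 f5 f6 g5
  have hdec0 : ∀ q, perp4 e q → ∃ q1 q4, EW R e (e 0) 1 q1 ∧ EW R e (e 0) 4 q4 ∧ q = q1 + q4 := by
    intro q hq
    obtain ⟨q1, q4, h1, h4, h5, h6, h7⟩ := a1 q hq
    exact ⟨q1, q4, ⟨h1, h6⟩, ⟨h4, h7⟩, h5⟩
  have hdec2 : ∀ q, perp4 e q → ∃ q1 q4, EW R e (e 2) 1 q1 ∧ EW R e (e 2) 4 q4 ∧ q = q1 + q4 := by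
    intro q hq
    obtain ⟨q1, q4, h1, h4, h5, h6, h7⟩ := b1 q (p1 hq)
    refine ⟨q1, q4, ⟨?_, h6⟩, ⟨?_, h7⟩, h5⟩
    · intro i
      fin_cases i
      · exact h1 2
      · exact h1 3
      · exact h1 0
      · exact h1 1
    · intro i
      fin_cases i
      · exact h4 2
      · exact h4 3
      · exact h4 0
      · exact h4 1
  have hneg : ∀ q, dot q (fun i => - e 2 i) = 0 → dot q (e 2) = 0 := by
    intro q hq
    have h1 : dot q (fun i => - e 2 i) = - dot q (e 2) := by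
      simp only [dot, mul_neg, sum_neg_distrib]
    rw [h1] at hq
    linarith
  have hdec3 : ∀ q, perp4 e q → ∃ q1 q4, EW R e (e 3) 1 q1 ∧ EW R e (e 3) 4 q4 ∧ q = q1 + q4 := by
    intro q hq
    obtain ⟨q1, q4, h1, h4, h5, h6, h7⟩ := c1 q (p2 hq)
    refine ⟨q1, q4, ⟨?_, h6⟩, ⟨?_, h7⟩, h5⟩
    · intro i
      fin_cases i
      · exact h1 2
      · exact h1 3
      · exact hneg _ (h1 1)
      · exact h1 0
    · intro i
      fin_cases i
      · exact h4 2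
      · exact h4 3
      · exact hneg _ (h4 1)
      · exact h4 0
  have hR1 : ∀ (a c p q : Fin n → ℝ), R4 R a p c q = rL R a c p q := fun _ _ _ _ => rfl
  -- terms with three frame vectors
  have hV : ∀ (i j k : Fin 4) (q : Fin n → ℝ), perp4 e q → R4 R (e i) (e j) (e k) q = 0 := by
    intro i j k q hq
    rw [a4 q i j k]
    have h1 : (fun i => ∑ j, dot q (e j) * e j i) = (0 : Fin n → ℝ) := by
      funext i
      simp [hq _]
    rw [h1, hR1, map_zero]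
  have hV2 : ∀ (i j k : Fin 4) (q : Fin n → ℝ), perp4 e q → R4 R (e i) q (e j) (e k) = 0 := by
    intro i j k q hq
    rw [hpair]
    exact hV j k i q hq
  -- the linear form of a vector in the last slot
  have hzero : ∀ (k : Fin 4) (q : Fin n → ℝ), perp4 e q →
      (∀ u, EW R e (e 0) 1 u → R4 R (e 0) u (e k) q = 0) →
      (∀ u, EW R e (e 0) 4 u → R4 R (e 0) u (e k) q = 0) → ∀ p, R4 R (e 0) p (e k) q = 0 := by
    intro k q hq h1 h4 p
    have := lin_zero he hdec0 ((rL R (e 0) (e k)).flip q) (fun j => by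
      rw [LinearMap.flip_apply, rL_apply]; exact hV 0 j k q hq) (fun u hu => by
      rw [LinearMap.flip_apply, rL_apply]; exact h1 u hu) (fun u hu => by
      rw [LinearMap.flip_apply, rL_apply]; exact h4 u hu) p
    rwa [LinearMap.flip_apply, rL_apply] at this
  -- `X`
  set X : (Fin n → ℝ) →ₗ[ℝ] (Fin n → ℝ) →ₗ[ℝ] ℝ := ∑ i : Fin n,
    (((rL R (e 0) (e 2)).flip (sb i)).smulRight ((rL R (e 0) (e 3)).flip (sb i))) with hX
  have hXa : ∀ p q, X p q = ∑ i, R4 R (e 0) p (e 2) (sb i) * R4 R (e 0) q (e 3) (sb i) := by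
    intro p q
    simp [hX, LinearMap.sum_apply]
  have hXanti : ∀ p q, EW R e (e 0) 4 p → EW R e (e 0) 4 q → X p q = - X q p := by
    intro p q hp hq
    have s1 := d5 p q hp.1 hq.1 hp.2 hq.2
    have s2 := f5 p q (p3 hp.1) (p3 hq.1) hp.2 hq.2
    have s3 := g5 p q (p4 hp.1) (p4 hq.1) hp.2 hq.2
    have hlin : ∀ (u : Fin n → ℝ) (i : Fin n), R4 R (e 0) u
        (fun i => Real.sqrt (1 / 2) * e 2 i + Real.sqrt (1 / 2) * e 3 i) (sb i) =
        Real.sqrt (1 / 2) * R4 R (e 0) u (e 2) (sb i) +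
          Real.sqrt (1 / 2) * R4 R (e 0) u (e 3) (sb i) := by
      intro u i
      exact ((hR4T n).1 R (e 2) (e 3) (e 0) u (sb i) _ _).2.2.1
    simp only [hlin] at s3
    have s4 : ∑ i, (Real.sqrt (1 / 2) * R4 R (e 0) p (e 2) (sb i) +
          Real.sqrt (1 / 2) * R4 R (e 0) p (e 3) (sb i)) *
        (Real.sqrt (1 / 2) * R4 R (e 0) q (e 2) (sb i) +
          Real.sqrt (1 / 2) * R4 R (e 0) q (e 3) (sb i)) =
        Real.sqrt (1 / 2) ^ 2 * ((∑ i, R4 R (e 0) p (e 2) (sb i) * R4 R (e 0) q (e 2) (sb i)) +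
          (∑ i, R4 R (e 0) p (e 3) (sb i) * R4 R (e 0) q (e 3) (sb i)) + X p q + X q p) := by
      rw [hXa, hXa, ← sum_add_distrib, ← sum_add_distrib, ← sum_add_distrib, mul_sum]
      exact sum_congr rfl (fun i _ => by ring)
    rw [s4, s1, s2, hsq] at s3
    linarith
  have hX4 : ∀ v, EW R e (e 0) 4 v → (∀ u, EW R e (e 0) 4 u → X u v = 0) → v = 0 := by
    intro v hv hXv
    set c : Fin n → ℝ := fun i => R4 R (e 0) v (e 2) (sb i) with hc
    have hcu : ∀ u, R4 R (e 0) v (e 2) u = dot u c := by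
      intro u
      rw [R4_last]
      rfl
    have hcp : perp4 e c := by
      intro j
      rw [dot_comm', ← hcu]
      exact hV2 0 2 j v hv.1
    -- `c` is an eigenvector
    have hc4 : EW R e (e 2) 4 c := by
      obtain ⟨q1, q4, hq1, hq4, hq⟩ := hdec2 c hcp
      obtain ⟨u1, u4, hu1, hu4, hu⟩ := hdec0 q1 hq1.1
      have hu41 : EW R e (e 2) 1 u4 := ⟨hu4.1, (a2 u4 hu4.1 hu4.2).2.1⟩
      have hu11 : EW R e (e 2) 1 u1 := by
        have : u1 = q1 - u4 := by rw [hu]; abel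
        rw [this]
        exact EW_sub hq1 hu41
      have k1 : R4 R (e 0) v (e 2) u4 = 0 := d2 v u4 hv.1 hu4.1 hv.2 hu4.2
      have k2 : R4 R (e 0) v (e 2) u1 = 0 := (d1 u1 v hu1.1 hv.1 hu1.2 hu11.2).2
      have k3 : dot q1 c = 0 := by
        rw [← hcu, hu, hR1, map_add, ← hR1, ← hR1, k1, k2, add_zero]
      have k4 : dot q4 q1 = 0 := Eg_orth hpair (by norm_num) hq4.2 hq1.2
      have k5 : q1 = 0 := by
        apply dot_self_zero
        rw [dot_comm', hq, dot_add_left, k4, add_zero] at k3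
        exact k3
      rw [k5, zero_add] at hq
      rw [hq]
      exact hq4
    have hc3 : Eg R (e 3) 4 c := (b2 c (p1 hcp) hc4.2).1
    have hXc : ∀ u, EW R e (e 0) 4 u → R4 R (e 0) u (e 3) c = 0 := by
      intro u hu
      have h1 := hXv u hu
      rw [hXanti u v hu hv, neg_eq_zero, hXa] at h1
      rw [R4_last]
      exact h1
    have hall : ∀ p, R4 R (e 0) p (e 3) c = 0 := by
      apply hzero 3 c hcp _ hXc
      intro u hu
      obtain ⟨u1, u4, hu1, hu4, hud⟩ := hdec3 u hu.1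
      have k1 : Eg R (e 0) 1 u4 := (c2 u4 (p2 hu4.1) hu4.2).2.1
      have k2 : EW R e (e 0) 1 u1 := by
        have : u1 = u - u4 := by rw [hud]; abel
        rw [this]
        exact EW_sub hu ⟨hu4.1, k1⟩
      have k3 := f3 u4 c (p3 hu4.1) (p3 hcp) hu4.2 hc3
      have k4 := (f1 u1 c (p3 hu1.1) (p3 hcp) k2.2 hu1.2).1
      rw [hud, hR1, map_add, LinearMap.add_apply, ← hR1, ← hR1, k3, k4, add_zero]
    have hc0 : c = 0 := by
      have h1 := f6 c c (p3 hcp) (p3 hcp) hc3 hc3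
      simp only [hall, mul_zero, sum_const_zero] at h1
      apply dot_self_zero
      linarith
    have h1 := d5 v v hv.1 hv.1 hv.2 hv.2
    have h2 : ∀ i, R4 R (e 0) v (e 2) (sb i) = 0 := fun i => congrFun hc0 i
    simp only [h2, mul_zero, sum_const_zero] at h1
    apply dot_self_zero
    linarith
  -- `T`
  have hT1 : ∀ v, EW R e (e 0) 1 v → (∀ u, EW R e (e 0) 1 u → rL R (e 0) (e 1) u v = 0) → v = 0 := by
    intro v hv hTv
    have hall : ∀ p, R4 R (e 0) p (e 1) v = 0 := by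
      apply hzero 1 v hv.1 hTv
      intro u hu
      rw [t1 u v hu.1 hv.1, t2 v u hv.1 hu.1 hu.2, neg_zero]
    have h1 := t3 v v hv.1 hv.1 hv.2 hv.2
    simp only [hall, mul_zero, sum_const_zero] at h1
    exact dot_self_zero h1.symm
  -- the linear map `R_z`
  set A : (Fin n → ℝ) →ₗ[ℝ] (Fin n → ℝ) :=
    LinearMap.pi (fun i => (rL R (e 0) (e 0)).flip (sb i)) with hA
  have hsb : ∀ (p : Fin n → ℝ) (i : Fin n), dot (sb i) p = p i := by
    intro p i
    simp [dot, sb]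
  have hAa : ∀ s p, Eg R (e 0) s p → A p = s • p := by
    intro s p hp
    funext i
    have h1 : A p i = R4 R (e 0) p (e 0) (sb i) := rfl
    rw [h1, hpair, hp.2, hsb]
    rfl
  exact parity hodd e he (EW R e (e 0) 1) (EW R e (e 0) 4) (fun q hq => hq.1) (fun q hq => hq.1)
    A (fun q hq => by rw [hAa 1 q hq.2, one_smul]) (fun q hq => hAa 4 q hq.2) hdec0
    (rL R (e 0) (e 1)) X (fun p q hp hq => t1 p q hp hq) (fun p q hp hq => t2 p q hp hq.1 hq.2)
    hT1 hXanti hX4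

end Geo

lemma Q_smul {n : ℕ} (c : ℝ) (R : T4 n) : Q (c • R) = c ^ 2 • Q R := by
  have h1 : ∀ a b c' d, BB (c • R) (c • R) a b c' d = c ^ 2 * BB R R a b c' d := by
    intro a b c' d
    simp only [BB, Pi.smul_apply, smul_eq_mul, mul_sum]
    exact sum_congr rfl (fun i _ => sum_congr rfl (fun j _ => by ring))
  funext a b c' d
  simp only [Q, h1, Pi.smul_apply, smul_eq_mul]
  ring

end Pool.Agent.Helper47.FLG.SBOx

namespace Pool.Agent.Helper47.FLG

open Finset Pool.Agent.Helper47.RFn SBOx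

theorem g_SBO (hOD1 : G_OD1) (hOD2 : G_OD2) (hOD3 : G_OD3) (hU2 : G_U2) (hNV1 : G_NV1)
    (hNW : G_NW) (hFG2 : G_FG2) (hFG1 : G_FG1) (hR4T : G_R4T) (hCL : Goal_CL) (hLN : Goal_LN)
    (hWQ : Goal_WQ) : G_SBO := by
  intro n hn hodd R hR hlam z w hq hI
  have hwd : ∀ u v : Fin n → ℝ, 0 ≤ wd u v := (hR4T n).2.2.2.2.2.2.2.1
  have hnrm : ∀ u : Fin n → ℝ, nrm u = dot u u := (hR4T n).2.2.2.2.2.2.2.2.1
  have hK2 : ∀ (R : T4 n) u v, K2 R u v = R4 R u v u v := (hR4T n).2.2.2.1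
  have hlin : ∀ (R S : T4 n) (a b c d : Fin n → ℝ) (t : ℝ),
      R4 (t • R) a b c d = t * R4 R a b c d := fun R S a b c d t =>
    ((hR4T n).2.1 R S a b c d t).2
  have hn1 : (0 : ℝ) < 16 * ((n : ℝ) - 1) := by
    have : (4 : ℝ) ≤ n := by exact_mod_cast hn
    linarith
  have hpos : ∀ u v, wd u v ≠ 0 → 0 < K2 R u v := by
    intro u v huv
    have h1 : 0 < wd u v := lt_of_le_of_ne (hwd u v) (Ne.symm huv)
    exact lt_of_lt_of_le (mul_pos (div_pos hlam hn1) h1) ((hFG2 n hn R hR).2.2.1 u v)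
  obtain ⟨e, he, -, -, -, hS⟩ := (hNW n hn).2.2 R z w hR hpos hq hI
  have he' : ∀ i j, dot (e i) (e j) = if i = j then 1 else 0 := he
  have hI0 : 0 ≤ qf (Id4 n) z w := by
    have h0 : ∀ v : Fin n → ℝ, rq (0 : M2 n) v = 0 := by
      intro v; simp [rq]
    exact (hWQ n 0 0 0 (by simp [Matrix.IsSymm]) (fun v => by rw [h0]; simp)
      (fun v => by rw [h0]; simp) z w).1
  have hIp : 0 < qf (Id4 n) z w := lt_of_le_of_ne hI0 (Ne.symm hI)
  set m := K2 R (e 0) (e 2) with hm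
  have hmp : 0 < m := by
    apply hpos
    rw [wd, hnrm, hnrm, he', he', he']
    simp
  have hq0 : qf R (cv (e 0) (e 1)) (cv (e 2) (e 3)) = 0 := by
    have h1 := hS R hR.1
    rw [hq, mul_zero] at h1
    rcases mul_eq_zero.1 h1.symm with h2 | h2
    · exact absurd h2 hI
    · exact h2
  have hNV : NV (m⁻¹ • R) e := by
    refine ⟨(hFG1 n).2.1 m⁻¹ R (inv_nonneg.2 hmp.le) hR, he, ?_, ?_⟩
    · rw [hK2, hlin R R, ← hK2, ← hm, inv_mul_cancel₀ hmp.ne']
    · rw [(hLN n).2.1, hq0, mul_zero]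
  have h1 := hS (Q R) ((hCL n).1 R hR.1)
  have h2 := (hNV1 n hn _ e hNV).2.1
  rw [Q_smul, (hLN n).2.1] at h2
  by_contra hcon
  rw [not_lt] at hcon
  have h3 : qf (Q R) (cv (e 0) (e 1)) (cv (e 2) (e 3)) = 0 := by
    apply le_antisymm
    · by_contra h4
      rw [not_le] at h4
      have h5 := mul_pos hIp h4
      linarith
    · by_contra h4
      rw [not_le] at h4
      have h5 : 0 < (m⁻¹) ^ 2 := by positivity
      have h6 := mul_neg_of_pos_of_neg h5 h4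
      linarith
  exact contra hOD1 hOD2 hOD3 hU2 hNV1 hCL hR4T hn hodd ⟨hNV, by
    rw [Q_smul, (hLN n).2.1, h3, mul_zero]⟩

end Pool.Agent.Helper47.FLG
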